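import Pool.Agent.Y667.RZ.Stm
import Pool.Agent.Y655.RZ.Par3

/-!
# Project PA (helper667): statements of the parts (absolute parity)
-/

set_option autoImplicit false

namespace Pool.Agent.Y667.PA

open Finset Pool.Agent.W262.RK Pool.Agent.W307.RT Pool.Agent.W307.RS Pool.Agent.W307.SE
  Pool.Agent.W307.FK Pool.Agent.Y667.RP Pool.Agent.Y667.RZ

/-- the local conditions `t ∈ {1, -a}`, `(c, -a)_p = 0` -/
def LP (a : ℤ) (p : ℕ) (v w h g : Bool) : Prop :=
  if (p : ℤ) ∣ a then h = (v && sgn p a) ∧ g = (w && xor (sgn p a) (sg0 p (-1)))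
  else w = false ∧ (if jacobiSym (-a) p = -1 then v = false else g = false)

/-- **ABSB** (the parity of the number of the classes with the conditions `LP`). -/
def St_ABSB : Prop := ∀ (M : ℕ) (a : ℤ), Squarefree M → Odd M → Pool.Agent.Y655.RZ.HS M →
  Squarefree a → (∀ q : ℕ, q.Prime → (q : ℤ) ∣ a → q ∣ M) →
    ∃ k : ℕ, (VG M (LP a)).ncard = 2 ^ k ∧
      Even (k + (M.primeFactors.filter
        (fun p : ℕ => ¬ (p : ℤ) ∣ a ∧ jacobiSym (-a) p = 1)).card)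

/-- **ABS** (absolute parity). -/
def St_ABS : Prop := ∀ s : Fin 3 → ℕ, Squarefree (∏ j, s j) → Odd (∏ j, s j) →
  (s 0 : ℤ) - s 1 = 32 * s 2 → s 0 % 8 = 1 → s 1 % 8 = 1 → Pool.Agent.Y655.RZ.HS (∏ j, s j) →
    ∃ k : ℕ, (V0 s (sgF (s 0) (s 1) (∏ j, s j))).ncard = 2 ^ k ∧
      Even (k + ((∏ j, s j).primeFactors \ sgF (s 0) (s 1) (∏ j, s j)).card)

end Pool.Agent.Y667.PA
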