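import Pool.Agent.Y667.PA.Root
import Pool.Agent.Y667.PA.Stm

/-!
# Project PA (helper667): root numbers of the curves, the product
-/

set_option autoImplicit false

namespace Pool.Agent.Y667.PA

open Finset Pool.Agent.W262.RK Pool.Agent.W307.RT Pool.Agent.W307.RS Pool.Agent.W307.SE
  Pool.Agent.W307.FK Pool.Agent.Y667.RP Pool.Agent.Y667.RZ Pool.Agent.Y285.RP

/-- the data of a pair -/
structure DP (s : Fin 3 → ℕ) : Prop where
  sq : Squarefree (∏ j, s j)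
  odd : Odd (∏ j, s j)
  rel : (s 0 : ℤ) - s 1 = 32 * s 2
  m0 : s 0 % 8 = 1
  m1 : s 1 % 8 = 1

lemma fin3 : ∀ j : Fin 3, j = 0 ∨ j = 1 ∨ j = 2 := by decide

lemma prod3 (s : Fin 3 → ℕ) : ∏ j, s j = s 0 * s 1 * s 2 := Fin.prod_univ_three s

lemma DP.a_eq {s : Fin 3 → ℕ} (h : DP s) : (s 0 : ℤ) = s 1 + 32 * s 2 := by
  have := h.rel
  linarith

lemma DP.disc {s : Fin 3 → ℕ} (h : DP s) :
    (Vm (s 1) (s 2)).Δ.natAbs = 4 * (∏ j, s j) ^ 2 := by
  have hb : (s 1 : ℤ) % 4 = 1 := by have := h.m1; omega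
  rw [Vm_disc hb, ← h.a_eq, prod3]
  have e : (4 * (s 0 : ℤ) ^ 2 * (s 1 : ℤ) ^ 2 * (s 2 : ℤ) ^ 2) =
      ((4 * (s 0 * s 1 * s 2) ^ 2 : ℕ) : ℤ) := by push_cast; ring
  rw [e, Int.natAbs_natCast]

lemma DP.primes {s : Fin 3 → ℕ} (h : DP s) :
    (Vm (s 1) (s 2)).Δ.natAbs.primeFactors = insert 2 (∏ j, s j).primeFactors := by
  have h0 := h.sq.ne_zero
  rw [h.disc, Nat.primeFactors_mul (by norm_num) (pow_ne_zero 2 h0),
    Nat.primeFactors_pow _ (by norm_num)]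
  have : (4 : ℕ).primeFactors = {2} := by
    have : (4 : ℕ) = 2 ^ 2 := by norm_num
    rw [this, Nat.primeFactors_prime_pow (by norm_num) Nat.prime_two]
  rw [this]
  rfl

lemma DP.two {s : Fin 3 → ℕ} (h : DP s) : 2 ∉ (∏ j, s j).primeFactors := by
  intro h2
  exact (Nat.not_even_iff_odd.2 h.odd) (even_iff_two_dvd.2 (Nat.dvd_of_mem_primeFactors h2))

lemma DP.cop {s : Fin 3 → ℕ} (h : DP s) (i j : Fin 3) (hij : i ≠ j) :
    Nat.Coprime (s i) (s j) := by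
  have h1 : s i * s j ∣ ∏ j, s j := by
    rw [← mul_prod_erase univ s (mem_univ i)]
    exact Nat.mul_dvd_mul_left _ (dvd_prod_of_mem s (mem_erase.2 ⟨hij.symm, mem_univ j⟩))
  exact Nat.coprime_of_squarefree_mul (h.sq.squarefree_of_dvd h1)

lemma DP.semi {s : Fin 3 → ℕ} (h : DP s) : Semistable (Vm (s 1) (s 2)) := by
  have hne : ∀ j, s j ≠ 0 := fun j =>
    (h.sq.squarefree_of_dvd (dvd_prod_of_mem s (mem_univ j))).ne_zero
  apply Vm_semi
  · have := h.m1; omega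
  · exact_mod_cast hne 2
  · rw [← h.a_eq]; exact_mod_cast hne 0
  · exact Nat.isCoprime_iff_coprime.2 (h.cop 1 2 (by decide))
  · rw [← h.a_eq]; exact Nat.isCoprime_iff_coprime.2 (h.cop 0 1 (by decide))

lemma DP.gcd_of {s : Fin 3 → ℕ} (h : DP s) {p : ℕ} (hp : p.Prime) {i j : Fin 3} (hij : i ≠ j)
    (hi : p ∣ s i) : ¬ p ∣ s j := by
  intro hj
  have := Nat.dvd_gcd hi hj
  rw [(h.cop i j hij)] at this
  exact hp.one_lt.ne' (Nat.dvd_one.1 this)

lemma DP.ap_eq {s : Fin 3 → ℕ} (h : DP s) {p : ℕ} (hp : p ∈ (∏ j, s j).primeFactors) :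
    -ap (Vm (s 1) (s 2)) p = if p ∈ sgF (s 0) (s 1) (∏ j, s j) then 1 else -1 := by
  have hpp := Nat.prime_of_mem_primeFactors hp
  have hpd := Nat.dvd_of_mem_primeFactors hp
  have : Fact p.Prime := ⟨hpp⟩
  have hp2 : p ≠ 2 := by
    rintro rfl
    exact h.two hp
  have hb : (s 1 : ℤ) % 4 = 1 := by have := h.m1; omega
  have hpi := Nat.prime_iff_prime_int.1 hpp
  have hgcd : ∀ x : ℤ, ¬ (p : ℤ) ∣ x → x.gcd p = 1 := by
    intro x hx
    rw [Int.gcd_comm, ← Int.isCoprime_iff_gcd_eq_one]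
    exact (hpi.coprime_iff_not_dvd).2 hx
  have hni : ∀ j : Fin 3, ¬ p ∣ s j → ¬ (p : ℤ) ∣ (s j : ℤ) := fun j h h' =>
    h (Int.natCast_dvd_natCast.1 h')
  have h01 : (s 0 : ℤ) - s 1 = 32 * s 2 := h.rel
  have h2d : ¬ (p : ℤ) ∣ 32 := by
    intro h
    have h2 : (p : ℤ) ∣ 2 ^ 5 := by norm_num; exact h
    have h3 : (p : ℤ) ∣ 2 := hpi.dvd_of_dvd_pow h2
    have h4 : p ∣ 2 := by exact_mod_cast h3
    exact hp2 ((Nat.prime_dvd_prime_iff_eq hpp Nat.prime_two).1 h4)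
  have key : ∀ x : ℤ, ¬ (p : ℤ) ∣ x → (p ∈ sgF (s 0) (s 1) (∏ j, s j) ↔ jacobiSym x p = -1) →
      -jacobiSym x p = if p ∈ sgF (s 0) (s 1) (∏ j, s j) then 1 else -1 := by
    intro x hx hiff
    by_cases hm : p ∈ sgF (s 0) (s 1) (∏ j, s j)
    · rw [if_pos hm, hiff.1 hm]; norm_num
    · rw [if_neg hm]
      rcases jacobiSym.eq_one_or_neg_one (hgcd x hx) with h | h
      · rw [h]
      · exact absurd (hiff.2 h) hm
  obtain ⟨j, -, hj⟩ := (hpp.prime.dvd_finsetProd_iff _).1 hpd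
  have hj3 : j = 0 ∨ j = 1 ∨ j = 2 := fin3 j
  rcases hj3 with rfl | rfl | rfl
  · have n1 := hni 1 (h.gcd_of hpp (by decide) hj)
    have n2 := hni 2 (h.gcd_of hpp (by decide) hj)
    have hj' : (p : ℤ) ∣ (s 0 : ℤ) := Int.natCast_dvd_natCast.2 hj
    rw [ap_a hb hp2 (by rw [← h.a_eq]; exact hj')]
    apply key _ (by rwa [dvd_neg])
    unfold sgF
    rw [mem_filter]
    constructor
    · rintro ⟨-, h1 | h1 | h1⟩
      · exact h1.2
      · exact absurd h1.1 n1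
      · exfalso
        rw [h01] at h1
        exact (hpi.dvd_or_dvd h1.1).elim h2d n2
    · intro h1
      exact ⟨hp, Or.inl ⟨hj', h1⟩⟩
  · have n0 := hni 0 (h.gcd_of hpp (by decide) hj)
    have n2 := hni 2 (h.gcd_of hpp (by decide) hj)
    have hj' : (p : ℤ) ∣ (s 1 : ℤ) := Int.natCast_dvd_natCast.2 hj
    rw [ap_b hb hp2 hj', ← h.a_eq]
    apply key _ (by rwa [dvd_neg])
    unfold sgF
    rw [mem_filter]
    constructor
    · rintro ⟨-, h1 | h1 | h1⟩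
      · exact absurd h1.1 n0
      · exact h1.2
      · exfalso
        rw [h01] at h1
        exact (hpi.dvd_or_dvd h1.1).elim h2d n2
    · intro h1
      exact ⟨hp, Or.inr (Or.inl ⟨hj', h1⟩)⟩
  · have n0 := hni 0 (h.gcd_of hpp (by decide) hj)
    have n1 := hni 1 (h.gcd_of hpp (by decide) hj)
    have hj' : (p : ℤ) ∣ (s 2 : ℤ) := Int.natCast_dvd_natCast.2 hj
    rw [ap_c hb hp2 hj', ← h.a_eq]
    apply key _ n0
    unfold sgF
    rw [mem_filter]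
    constructor
    · rintro ⟨-, h1 | h1 | h1⟩
      · exact absurd h1.1 n0
      · exact absurd h1.1 n1
      · exact h1.2
    · intro h1
      exact ⟨hp, Or.inr (Or.inr ⟨by rw [h01]; exact hj'.mul_left _, h1⟩)⟩

/-- the root number of the semistable curve of the pair -/
lemma DP.wSemi_eq {s : Fin 3 → ℕ} (h : DP s) : wSemi (Vm (s 1) (s 2)) =
    (-1) ^ ((∏ j, s j).primeFactors \ sgF (s 0) (s 1) (∏ j, s j)).card := by
  classical
  unfold wSemi
  rw [h.primes, prod_insert h.two, ap_two (by have := h.m1; omega),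
    prod_congr rfl (fun p hp => h.ap_eq hp), prod_ite, prod_const_one, one_mul, prod_const]
  have : (filter (fun x => x ∉ sgF (s 0) (s 1) (∏ j, s j)) (∏ j, s j).primeFactors) =
      (∏ j, s j).primeFactors \ sgF (s 0) (s 1) (∏ j, s j) := by
    ext p
    rw [mem_filter, mem_sdiff]
  rw [this]
  ring

lemma prod_pf {m : ℕ} (h : Squarefree m) : ∏ p ∈ m.primeFactors, p = m :=
  Nat.prod_primeFactors_of_squarefree h

/-- the root number of the curve of the pair -/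
lemma DP.root1 {s : Fin 3 → ℕ} (h : DP s) {k : ℤ} (hk : (s 0 : ℤ) + s 1 = 3 * k) :
    HasRootNumber ⟨0, 0, 0, ((cc (s 0) (s 1) k).1 : ℚ), ((cc (s 0) (s 1) k).2 : ℚ)⟩
      ((-1) ^ ((∏ j, s j).primeFactors \ sgF (s 0) (s 1) (∏ j, s j)).card) := by
  have hb : (s 1 : ℤ) % 4 = 1 := by have := h.m1; omega
  refine ⟨Vm (s 1) (s 2), 1, h.semi, squarefree_one, rfl, Nat.coprime_one_left _,
    ⟨⟨1, ((1 : ℕ) : ℚ) * ((s 1 : ℤ) - k), 0, 0⟩, ?_⟩, ?_⟩
  · have := cc_twist (b := s 1) (c := s 2) (k := k) hb (by rw [← h.a_eq]; exact hk) 1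
    rw [← h.a_eq] at this
    rw [← this]
    congr 2 <;> push_cast <;> simp
  · rw [jacobiSym.one_right, one_mul, h.wSemi_eq]

/-- the root number of the twist by 17 of the curve of the pair -/
lemma DP.root17 {s : Fin 3 → ℕ} (h : DP s) (h17 : ¬ 17 ∣ ∏ j, s j) (h0 : s 0 % 17 = 1)
    (h1 : s 1 % 17 = 15) {k : ℤ} (hk : (s 0 : ℤ) + s 1 = 3 * k) :
    HasRootNumber ⟨0, 0, 0, ((cc (17 * s 0) (17 * s 1) (17 * k)).1 : ℚ),
      ((cc (17 * s 0) (17 * s 1) (17 * k)).2 : ℚ)⟩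
      ((-1) ^ (((∏ j, s j).primeFactors \ sgF (s 0) (s 1) (∏ j, s j)).card + 1)) := by
  have hb : (s 1 : ℤ) % 4 = 1 := by have := h.m1; omega
  have p17 : Nat.Prime 17 := by norm_num
  refine ⟨Vm (s 1) (s 2), 17, h.semi, p17.squarefree, rfl, ?_,
    ⟨⟨1, ((17 : ℕ) : ℚ) * ((s 1 : ℤ) - k), 0, 0⟩, ?_⟩, ?_⟩
  · rw [h.disc]
    apply Nat.Coprime.mul_right (by norm_num)
    exact Nat.Coprime.pow_right _ ((p17.coprime_iff_not_dvd).2 h17)
  · have := cc_twist (b := s 1) (c := s 2) (k := k) hb (by rw [← h.a_eq]; exact hk) 17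
    rw [← h.a_eq] at this
    rw [← this]
    push_cast
    rfl
  · rw [h.wSemi_eq, h.primes, prod_insert h.two, prod_pf h.sq, prod3]
    have e : ((2 * (s 0 * s 1 * s 2) : ℕ) : ℤ) % (17 : ℕ) = 6 % (17 : ℕ) := by
      have h2 : s 2 % 17 = 7 := by have := h.rel; omega
      have h3 : (2 * (s 0 * s 1 * s 2)) % 17 = 6 := by
        rw [Nat.mul_mod, Nat.mul_mod (s 0 * s 1), Nat.mul_mod (s 0), h0, h1, h2]
      omega
    rw [jacobiSym.mod_left' e]
    have : jacobiSym 6 17 = -1 := by norm_num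
    rw [this, pow_succ]
    ring

end Pool.Agent.Y667.PA
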