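import Pool.Agent.Y667.PA.Loc
import Pool.Agent.Y667.MT.Rank
import Pool.Agent.Y99.PA.Absa
import Pool.Agent.Y350.PA.ABSB

/-!
# Project PA (helper667): the order of the 2-Selmer group, the rank and the root number
-/

set_option autoImplicit false

namespace Pool.Agent.Y667.PA

open Finset Filter Pool.Agent.W262.RK Pool.Agent.W307.RT Pool.Agent.W307.RS Pool.Agent.W307.SE
  Pool.Agent.W307.FK Pool.Agent.Y667.RP Pool.Agent.Y667.RZ Pool.Agent.Y667.MT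
open Pool.Agent.Y285.RP Pool.Agent.Y285.RZ Pool.Agent.Y738.MT

theorem abs : St_ABS :=
  Pool.Agent.Y99.PA.ABSA Pool.Agent.Y212.RZ.LAG (Pool.Agent.Y350.PA.ABSB Pool.Agent.Y212.RZ.LAG)

open Classical in
/-- If every good pair gives a curve with the property `T` (the curve of the pair or its twist by
`17`), then a positive proportion of the curves has the property `T`. -/
theorem transR (r : ℕ) (T : ℤ × ℤ → Prop)
    (hT : ∀ (X : ℕ) (t : ℕ × ℕ), t ∈ Icc 1 X ×ˢ Icc 1 X → GoodR r X t →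
      T (cc (t.1 : ℤ) (t.2 : ℤ) (((t.1 + t.2) / 3 : ℕ) : ℤ)) ∨
      T (cc (17 * (t.1 : ℤ)) (17 * (t.2 : ℤ)) (17 * (((t.1 + t.2) / 3 : ℕ) : ℤ)))) :
    ∃ c : ℝ, 0 < c ∧ ∃ H0 : ℕ, ∀ H : ℕ, H0 ≤ H →
      c * ((Cv 2 H).card : ℝ) ≤ (((Cv 2 H).filter T).card : ℝ) := by
  obtain ⟨c, hc, X0, hX0⟩ := mainR r
  refine ⟨c / 160000, by positivity, 64 * (17 * max X0 1) ^ 6, fun H hH => ?_⟩
  obtain ⟨X, hXX0, hX2, h3⟩ := Pool.Agent.Y890.RZ.size_exists X0 H hH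
  have h1 := hX0 X hXX0
  obtain ⟨F, hF⟩ : ∃ F, F = (Icc 1 X ×ˢ Icc 1 X).filter (GoodR r X) := ⟨_, rfl⟩
  rw [← hF] at h1
  obtain ⟨p, hp⟩ : ∃ p : ℕ × ℕ → Prop, p = fun t =>
      T (cc (t.1 : ℤ) (t.2 : ℤ) (((t.1 + t.2) / 3 : ℕ) : ℤ)) := ⟨_, rfl⟩
  have hmem : ∀ t ∈ F, t ∈ Icc 1 X ×ˢ Icc 1 X ∧ GoodR r X t := by
    intro t ht
    rw [hF, mem_filter] at ht
    exact ht
  have a1 : (F.filter p).card ≤ ((Cv 2 H).filter T).card := by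
    refine injN1 (N := 2 ^ (r + 2)) hX2 _ (fun t ht => ⟨(hmem t (mem_filter.1 ht).1).1,
      goodN_of (hmem t (mem_filter.1 ht).1).2⟩) T fun t ht => ?_
    have := (mem_filter.1 ht).2
    rw [hp] at this
    exact this
  have a2 : (F.filter (fun t => ¬ p t)).card ≤ ((Cv 2 H).filter T).card := by
    refine injN17 (N := 2 ^ (r + 2)) hX2 _ (fun t ht => ⟨(hmem t (mem_filter.1 ht).1).1,
      goodN_of (hmem t (mem_filter.1 ht).1).2⟩) T fun t ht => ?_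
    have h4 := (mem_filter.1 ht).2
    rw [hp] at h4
    obtain ⟨g1, g2⟩ := hmem t (mem_filter.1 ht).1
    exact (hT X t g1 g2).resolve_left h4
  have hsum := card_filter_add_card_filter_not (s := F) p
  have k4 : F.card ≤ 2 * ((Cv 2 H).filter T).card := by omega
  have h3' : ((Cv 2 H).card : ℝ) ≤ 80000 * (X : ℝ) ^ 2 := by exact_mod_cast h3
  have h4' : (F.card : ℝ) ≤ 2 * (((Cv 2 H).filter T).card : ℝ) := by exact_mod_cast k4
  have h5 : c / 160000 * ((Cv 2 H).card : ℝ) ≤ c / 160000 * (80000 * (X : ℝ) ^ 2) := by gcongr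
  have h7 : c / 160000 * (80000 * (X : ℝ) ^ 2) = c * (X : ℝ) ^ 2 / 2 := by ring
  linarith

/-- the property of the curves: 2-Selmer group of order `2 ^ (r + 2)`, root number `(-1) ^ r` -/
def TPR (r : ℕ) (k : ℤ × ℤ) : Prop := (SelR k.1 k.2).Finite ∧ (SelR k.1 k.2).ncard = 2 ^ (r + 2) ∧
  HasRootNumber ⟨0, 0, 0, (k.1 : ℚ), (k.2 : ℚ)⟩ ((-1) ^ r) ∧
  GlobalRoot ⟨0, 0, 0, (k.1 : ℚ), (k.2 : ℚ)⟩ ((-1) ^ r)

lemma npow_eq {n r : ℕ} (h : Even (n + r)) : (-1 : ℤ) ^ n = (-1) ^ r := by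
  rcases Nat.even_or_odd r with h1 | h1
  · rw [h1.neg_one_pow, ((Nat.even_add.1 h).2 h1).neg_one_pow]
  · have h2 : Odd n := by
      rw [← Nat.not_even_iff_odd] at h1 ⊢
      exact fun h3 => h1 ((Nat.even_add.1 h).1 h3)
    rw [h1.neg_one_pow, h2.neg_one_pow]

lemma tpr_of {r X : ℕ} {t : ℕ × ℕ} (ht : t ∈ Icc 1 X ×ˢ Icc 1 X) (h : GoodR r X t) :
    TPR r (cc (t.1 : ℤ) (t.2 : ℤ) (((t.1 + t.2) / 3 : ℕ) : ℤ)) ∨
      TPR r (cc (17 * (t.1 : ℤ)) (17 * (t.2 : ℤ)) (17 * (((t.1 + t.2) / 3 : ℕ) : ℤ))) := by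
  obtain ⟨f1, f2, f3, f4, f5, f6, f7⟩ := factsN ht (goodN_of h)
  obtain ⟨-, -, -, -, -, -, -, s, e0, e1, hsq, hodd, hp, heq, m0, m1, m2, m3, hσ,
    ⟨v0, c0, l0⟩, v1, c1, l1⟩ := h
  have h17 : ¬ 17 ∣ ∏ j, s j := by
    intro h
    have := hp 17 (by norm_num) h
    omega
  have hD : DP s := ⟨hsq, hodd, heq, m0, m1⟩
  obtain ⟨k, k', hk, hk', hodd'⟩ := Pool.Agent.Y655.RZ.PAR Pool.Agent.Y212.RZ.LAG s hsq hodd h17 heq
    m0 m1 m2 m3 hσ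
  obtain ⟨k1, hk1, hev⟩ := abs s hsq hodd heq m0 m1 hσ
  have hkk1 : k1 = k := Nat.pow_right_injective (le_refl 2) (hk1.symm.trans hk)
  subst hkk1
  obtain ⟨g0, g1⟩ := Pool.Agent.Y535.RZ.SEL17 s hsq hodd h17 heq m0 m1 m2 m3
  obtain ⟨r0, r1⟩ := Pool.Agent.Y535.RZ.SURJ Pool.Agent.Y105.RZ.GOODS s hsq hodd hp heq m0 m1 m2 m3
  have E0 := Set.Subset.antisymm g0 r0
  have E1 := Set.Subset.antisymm g1 r1
  rw [hk] at c0 l0
  rw [hk'] at c1 l1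
  rw [← E0] at v0 hk
  rw [← E1] at v1 hk'
  have hkk : (s 0 : ℤ) + s 1 = 3 * (((t.1 + t.2) / 3 : ℕ) : ℤ) := by rw [e0, e1]; exact f1
  have R1 := hD.root1 hkk
  have R2 := hD.root17 h17 m2 m3 hkk
  have G1 := hD.glob1 hkk
  have G2 := hD.glob17 h17 m2 m3 hkk
  obtain ⟨n, hn⟩ : ∃ n, n = ((∏ j, s j).primeFactors \ sgF (s 0) (s 1) (∏ j, s j)).card := ⟨_, rfl⟩
  rw [← hn] at R1 R2 G1 G2 hev
  rw [e0, e1] at R1 R2 G1 G2 v0 v1 hk hk'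
  rcases par_mid hodd' c0 c1 l0 l1 with h | h
  · left
    obtain ⟨t1, t2⟩ := tgN f1 f2 f3 v0 (hk.trans h)
    have hkr : k1 = r + 2 := Nat.pow_right_injective (le_refl 2) h
    have hnr : Even (n + r) := by
      rw [hkr] at hev
      have : r + 2 + n = n + r + 2 := by ring
      rw [this] at hev
      exact (Nat.even_add.1 hev).2 (by decide)
    rw [npow_eq hnr] at R1 G1
    exact ⟨t1, t2, R1, G1⟩
  · right
    obtain ⟨t1, t2⟩ := tgN (N := 2 ^ (r + 2)) (a := 17 * (t.1 : ℤ)) (b := 17 * (t.2 : ℤ))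
      (k := 17 * (((t.1 + t.2) / 3 : ℕ) : ℤ)) (by linarith) (by linarith) (by linarith) v1
      (hk'.trans h)
    have hkr : k' = r + 2 := Nat.pow_right_injective (le_refl 2) h
    have hnr : Even (n + 1 + r) := by
      rw [hkr] at hodd'
      obtain ⟨x, hx⟩ := hodd'
      obtain ⟨y, hy⟩ := hev
      exact ⟨y + x - k1, by omega⟩
    rw [npow_eq hnr] at R2 G2
    exact ⟨t1, t2, R2, G2⟩

open Classical in
theorem curvesPR (r : ℕ) : ∃ c : ℝ, 0 < c ∧ ∃ H0 : ℕ, ∀ H : ℕ, H0 ≤ H →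
    c * ((Cv 2 H).card : ℝ) ≤ (((Cv 2 H).filter (TPR r)).card : ℝ) :=
  transR r (TPR r) fun _ _ ht h => tpr_of ht h

end Pool.Agent.Y667.PA
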