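import Mathlib
import Pool.Agent.Y667.PA.MainR
import Pool.Agent.Y667.BK.Fin

/-!
# Project PA (helper667): products of curves
-/

set_option autoImplicit false

namespace Pool.Agent.Y667.PA

open Finset Module

lemma rk_prod (M N : Type) [AddCommGroup M] [AddCommGroup N] [Module.Finite ℤ M]
    [Module.Finite ℤ N] : finrank ℤ (M × N) = finrank ℤ M + finrank ℤ N := by
  have h := Submodule.finrank_quotient_add_finrank (LinearMap.ker (LinearMap.snd ℤ M N))
  rw [(LinearMap.quotKerEquivOfSurjective (LinearMap.snd ℤ M N)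
    LinearMap.snd_surjective).finrank_eq] at h
  have h2 : finrank ℤ (LinearMap.ker (LinearMap.snd ℤ M N)) = finrank ℤ M := by
    rw [LinearMap.ker_snd]
    exact (LinearEquiv.ofInjective (LinearMap.inl ℤ M N) LinearMap.inl_injective).finrank_eq.symm
  rw [h2] at h
  omega

lemma rk_pi (g : ℕ) : ∀ (M : Fin g → Type) [∀ i, AddCommGroup (M i)] [∀ i, Module.Finite ℤ (M i)],
    finrank ℤ (∀ i, M i) = ∑ i, finrank ℤ (M i) := by
  induction g with
  | zero =>
    intro M _ _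
    rw [Finset.univ_eq_empty, Finset.sum_empty]
    exact finrank_zero_of_subsingleton
  | succ n ih =>
    intro M _ _
    rw [Fin.sum_univ_succ, ← ih (fun i => M i.succ), ← rk_prod]
    exact (Fin.consLinearEquiv ℤ M).symm.finrank_eq

lemma fin_of {c : ℤ × ℤ} (hD : 4 * c.1 ^ 3 + 27 * c.2 ^ 2 ≠ 0)
    (hT : Pool.Agent.W307.RT.HasT 2 (Pool.Agent.W307.RT.Sh c.1 c.2)) :
    Module.Finite ℤ (Pool.Agent.W307.RT.Sh c.1 c.2).toAffine.Point := by
  obtain ⟨F, -, hF⟩ := Pool.Agent.W513.FK.parf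
  obtain ⟨-, -, -, -, -, e1, e2, e3, he, -, -⟩ := hF c hD hT
  obtain ⟨d12, d13, d23⟩ := Pool.Agent.W402.FK.dist c.1 c.2 e1 e2 e3 hD he
  exact Module.Finite.iff_addGroup_fg.2
    (Pool.Agent.Y667.BK.fg_pts (Pool.Agent.TH841.SH.isR_Sh he) d12 d13 d23)

/-- the product of the local root numbers of a product of curves at all the places -/
def ProdRoot {g : ℕ} (W : Fin g → WeierstrassCurve ℚ) (w : ℤ) : Prop :=
  ∃ f : ℕ → Fin g → ℤ, (∀ p : ℕ, p.Prime → ∀ i, LocalRoot (W i) p (f p i)) ∧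
    ∃ S : Finset ℕ, (∀ p ∈ S, p.Prime) ∧ (∀ p : ℕ, p.Prime → p ∉ S → ∏ i, f p i = 1) ∧
      w = (-1) ^ g * ∏ p ∈ S, ∏ i, f p i

lemma prodRoot {g : ℕ} (W : Fin g → WeierstrassCurve ℚ) (w : Fin g → ℤ)
    (h : ∀ i, GlobalRoot (W i) (w i)) : ProdRoot W (∏ i, w i) := by
  classical
  choose f hf S hS h1 h2 using h
  refine ⟨fun p i => f i p, fun p hp i => hf i p hp, Finset.univ.biUnion S, ?_, ?_, ?_⟩
  · intro p hp
    obtain ⟨i, -, hi⟩ := mem_biUnion.1 hp
    exact hS i p hi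
  · intro p hp hn
    refine prod_eq_one fun i _ => h1 i p hp fun hi => hn (mem_biUnion.2 ⟨i, mem_univ _, hi⟩)
  · rw [prod_comm]
    have e : ∀ i, ∏ p ∈ Finset.univ.biUnion S, f i p = -w i := by
      intro i
      rw [h2 i, neg_neg]
      refine (prod_subset (subset_biUnion_of_mem S (mem_univ i)) fun p hp hn => ?_).symm
      obtain ⟨j, -, hj⟩ := mem_biUnion.1 hp
      exact h1 i p (hS j p hj) hn
    rw [prod_congr rfl fun i _ => e i, prod_neg, card_univ, Fintype.card_fin, ← mul_assoc,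
      ← pow_add, ← two_mul, pow_mul]
    norm_num

end Pool.Agent.Y667.PA
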