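import Pool.Agent.Y667.PA.Root2
import Pool.Agent.Y655.RZ.Par

/-!
# Project PA (helper667): local root numbers
-/

set_option autoImplicit false

namespace Pool.Agent.Y667.PA

open Finset Pool.Agent.W262.RK Pool.Agent.W307.RT Pool.Agent.W307.RS Pool.Agent.W307.SE
  Pool.Agent.W307.FK Pool.Agent.Y667.RP Pool.Agent.Y667.RZ Pool.Agent.Y285.RP

/-- `V` is an integral model of `W` -/
def ModelOf (W : WeierstrassCurve ℚ) (V : WeierstrassCurve ℤ) : Prop :=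
  ∃ C : WeierstrassCurve.VariableChange ℚ, C • W = V.map (Int.castRingHom ℚ)

/-- the local root number at `p`: good reduction, multiplicative reduction, quadratic twist
(ramified at `p ≠ 2`) of good reduction -/
def LocalRoot (W : WeierstrassCurve ℚ) (p : ℕ) (w : ℤ) : Prop :=
  (∃ V : WeierstrassCurve ℤ, ModelOf W V ∧ ¬ (p : ℤ) ∣ V.Δ ∧ w = 1) ∨
  (∃ V : WeierstrassCurve ℤ, ModelOf W V ∧ (p : ℤ) ∣ V.Δ ∧ ¬ (p : ℤ) ∣ V.c₄ ∧ w = -ap V p) ∨
  (p ≠ 2 ∧ ∃ (V : WeierstrassCurve ℤ) (d : ℕ), p ∣ d ∧ Squarefree d ∧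
    (∃ C : WeierstrassCurve.VariableChange ℚ, C • W = twist V d) ∧ ¬ (p : ℤ) ∣ V.Δ ∧
    w = jacobiSym (-1) p)

/-- the global root number is the product of the local ones (the one at infinity is `-1`) -/
def GlobalRoot (W : WeierstrassCurve ℚ) (w : ℤ) : Prop :=
  ∃ f : ℕ → ℤ, (∀ p : ℕ, p.Prime → LocalRoot W p (f p)) ∧
    ∃ S : Finset ℕ, (∀ p ∈ S, p.Prime) ∧ (∀ p : ℕ, p.Prime → p ∉ S → f p = 1) ∧
      w = -∏ p ∈ S, f p

/-- a model with `2`-adic change of variables -/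
lemma cc_model {b c k : ℤ} (hb : b % 4 = 1) (hk : (b + 32 * c) + b = 3 * k) :
    ModelOf ⟨0, 0, 0, ((cc (b + 32 * c) b k).1 : ℚ), ((cc (b + 32 * c) b k).2 : ℚ)⟩ (Vm b c) := by
  have hk' : (k : ℚ) = (2 * b + 32 * c) / 3 := by
    have : ((b + 32 * c) + b : ℚ) = 3 * k := by exact_mod_cast hk
    linarith
  have h4 : (((b - 1) / 4 : ℤ) : ℚ) = (b - 1) / 4 := by
    have : 4 * ((b - 1) / 4) = b - 1 := by omega
    have h5 : (4 : ℚ) * (((b - 1) / 4 : ℤ) : ℚ) = b - 1 := by exact_mod_cast this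
    linarith
  -- `x = 4 X + (b - k)`, `y = 8 Y + 4 X`
  refine ⟨⟨Units.mk0 2 (by norm_num), (b - k : ℤ), 1 , 0⟩, ?_⟩
  rw [WeierstrassCurve.variableChange_def]
  unfold cc Vm
  ext
  · simp
  · simp only [Units.val_inv_eq_inv_val, Units.val_mk0, WeierstrassCurve.map_a₂, eq_intCast]
    push_cast
    rw [h4, hk']
    ring
  · simp
  · simp only [Units.val_inv_eq_inv_val, Units.val_mk0, WeierstrassCurve.map_a₄, eq_intCast]
    push_cast
    rw [hk']
    ring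
  · simp only [Units.val_inv_eq_inv_val, Units.val_mk0, WeierstrassCurve.map_a₆, eq_intCast]
    push_cast
    rw [hk']
    ring

/-- good or multiplicative reduction -/
lemma local_semi {W : WeierstrassCurve ℚ} {V : WeierstrassCurve ℤ} (hm : ModelOf W V)
    (hV : Semistable V) {p : ℕ} (hp : p.Prime) :
    LocalRoot W p (if p ∈ V.Δ.natAbs.primeFactors then -ap V p else 1) := by
  by_cases h : (p : ℤ) ∣ V.Δ
  · have hmem : p ∈ V.Δ.natAbs.primeFactors := by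
      rw [Nat.mem_primeFactors]
      exact ⟨hp, Int.natCast_dvd.1 h, Int.natAbs_ne_zero.2 hV.1⟩
    rw [if_pos hmem]
    exact Or.inr (Or.inl ⟨V, hm, h, hV.2 p hp h, rfl⟩)
  · have hmem : p ∉ V.Δ.natAbs.primeFactors := by
      intro hmem
      exact h (Int.natCast_dvd.2 (Nat.dvd_of_mem_primeFactors hmem))
    rw [if_neg hmem]
    exact Or.inl ⟨V, hm, h, rfl⟩

lemma DP.model {s : Fin 3 → ℕ} (h : DP s) {k : ℤ} (hk : (s 0 : ℤ) + s 1 = 3 * k) :
    ModelOf ⟨0, 0, 0, ((cc (s 0) (s 1) k).1 : ℚ), ((cc (s 0) (s 1) k).2 : ℚ)⟩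
      (Vm (s 1) (s 2)) := by
  have hb : (s 1 : ℤ) % 4 = 1 := by have := h.m1; omega
  have := cc_model (b := s 1) (c := s 2) (k := k) hb (by rw [← h.a_eq]; exact hk)
  rw [← h.a_eq] at this
  exact this

/-- the global root number of the curve of the pair -/
lemma DP.glob1 {s : Fin 3 → ℕ} (h : DP s) {k : ℤ} (hk : (s 0 : ℤ) + s 1 = 3 * k) :
    GlobalRoot ⟨0, 0, 0, ((cc (s 0) (s 1) k).1 : ℚ), ((cc (s 0) (s 1) k).2 : ℚ)⟩
      ((-1) ^ ((∏ j, s j).primeFactors \ sgF (s 0) (s 1) (∏ j, s j)).card) := by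
  refine ⟨fun p => if p ∈ (Vm (s 1) (s 2)).Δ.natAbs.primeFactors then -ap (Vm (s 1) (s 2)) p
    else 1, fun p hp => local_semi (h.model hk) h.semi hp,
    (Vm (s 1) (s 2)).Δ.natAbs.primeFactors, fun p hp => Nat.prime_of_mem_primeFactors hp,
    fun p _ hp => if_neg hp, ?_⟩
  rw [← h.wSemi_eq]
  unfold wSemi
  congr 1
  exact prod_congr rfl fun p hp => (if_pos hp).symm

lemma DP.pne {s : Fin 3 → ℕ} (h : DP s) {p : ℕ} (hp : p ∈ (∏ j, s j).primeFactors) : p ≠ 2 := by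
  rintro rfl
  exact h.two hp

/-- the coefficients `a_p` of the twist by 17 -/
lemma DP.ap17 {s : Fin 3 → ℕ} (h : DP s) {p : ℕ} (hp : p ∈ (∏ j, s j).primeFactors) :
    ap (Vm (17 * s 1) (17 * s 2)) p = jacobiSym 17 p * ap (Vm (s 1) (s 2)) p := by
  have hpp := Nat.prime_of_mem_primeFactors hp
  have hpd := Nat.dvd_of_mem_primeFactors hp
  have : Fact p.Prime := ⟨hpp⟩
  have hp2 := h.pne hp
  have hb : (s 1 : ℤ) % 4 = 1 := by have := h.m1; omega
  have hb' : (17 * s 1 : ℤ) % 4 = 1 := by omega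
  have e : (17 * (s 1 : ℤ)) + 32 * (17 * (s 2 : ℤ)) = 17 * (s 0 : ℤ) := by
    rw [h.a_eq]; ring
  obtain ⟨j, -, hj⟩ := (hpp.prime.dvd_finsetProd_iff _).1 hpd
  have hj' : (p : ℤ) ∣ (s j : ℤ) := Int.natCast_dvd_natCast.2 hj
  rcases fin3 j with rfl | rfl | rfl
  · rw [ap_a hb hp2 (by rw [← h.a_eq]; exact hj'), ap_a hb' hp2 (by rw [e]; exact hj'.mul_left _),
      ← jacobiSym.mul_left]
    congr 1
    ring
  · rw [ap_b hb hp2 hj', ap_b hb' hp2 (hj'.mul_left _), ← jacobiSym.mul_left, e, ← h.a_eq]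
    congr 1
    ring
  · rw [ap_c hb hp2 hj', ap_c hb' hp2 (hj'.mul_left _), ← jacobiSym.mul_left, e, ← h.a_eq]

lemma DP.disc17 {s : Fin 3 → ℕ} (h : DP s) :
    (Vm (17 * s 1) (17 * s 2)).Δ = 17 ^ 6 * (Vm (s 1) (s 2)).Δ := by
  have hb : (s 1 : ℤ) % 4 = 1 := by have := h.m1; omega
  have hb' : (17 * s 1 : ℤ) % 4 = 1 := by omega
  rw [Vm_disc hb, Vm_disc hb']
  ring

lemma DP.c417 {s : Fin 3 → ℕ} (h : DP s) :
    (Vm (17 * s 1) (17 * s 2)).c₄ = 17 ^ 2 * (Vm (s 1) (s 2)).c₄ := by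
  have hb : (s 1 : ℤ) % 4 = 1 := by have := h.m1; omega
  have hb' : (17 * s 1 : ℤ) % 4 = 1 := by omega
  rw [Vm_c4 hb, Vm_c4 hb']
  ring

/-- the global root number of the twist by 17 -/
lemma DP.glob17 {s : Fin 3 → ℕ} (h : DP s) (h17 : ¬ 17 ∣ ∏ j, s j) (h0 : s 0 % 17 = 1)
    (h1 : s 1 % 17 = 15) {k : ℤ} (hk : (s 0 : ℤ) + s 1 = 3 * k) :
    GlobalRoot ⟨0, 0, 0, ((cc (17 * s 0) (17 * s 1) (17 * k)).1 : ℚ),
      ((cc (17 * s 0) (17 * s 1) (17 * k)).2 : ℚ)⟩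
      ((-1) ^ (((∏ j, s j).primeFactors \ sgF (s 0) (s 1) (∏ j, s j)).card + 1)) := by
  classical
  have m8 : (17 * (s 1 : ℤ)) % 8 = 1 := by have := h.m1; omega
  have m8' : (s 1 : ℤ) % 8 = 1 := by have := h.m1; omega
  have hb : (s 1 : ℤ) % 4 = 1 := by have := h.m1; omega
  have hb' : (17 * s 1 : ℤ) % 4 = 1 := by omega
  have p17 : Nat.Prime 17 := by norm_num
  have p17i : Prime (17 : ℤ) := Nat.prime_iff_prime_int.1 p17
  have e : (17 * (s 1 : ℤ)) + 32 * (17 * (s 2 : ℤ)) = 17 * (s 0 : ℤ) := by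
    rw [h.a_eq]; ring
  have hm : ModelOf ⟨0, 0, 0, ((cc (17 * s 0) (17 * s 1) (17 * k)).1 : ℚ),
      ((cc (17 * s 0) (17 * s 1) (17 * k)).2 : ℚ)⟩ (Vm (17 * s 1) (17 * s 2)) := by
    have := cc_model (b := 17 * s 1) (c := 17 * s 2) (k := 17 * k) hb' (by rw [e]; linarith)
    rw [e] at this
    exact this
  have hd0 : (Vm (s 1) (s 2)).Δ ≠ 0 := h.semi.1
  have hpr : ∀ p : ℕ, p.Prime → ((p : ℤ) ∣ (Vm (s 1) (s 2)).Δ ↔
      p ∈ insert 2 (∏ j, s j).primeFactors) := by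
    intro p hp
    rw [← h.primes, Nat.mem_primeFactors]
    exact ⟨fun h => ⟨hp, Int.natCast_dvd.1 h, Int.natAbs_ne_zero.2 hd0⟩,
      fun h => Int.natCast_dvd.2 h.2.1⟩
  have h17n : (17 : ℕ) ∉ insert 2 (∏ j, s j).primeFactors := by
    rw [mem_insert]
    rintro (h | h)
    · norm_num at h
    · exact h17 (Nat.dvd_of_mem_primeFactors h)
  have hne : ∀ p : ℕ, p.Prime → p ≠ 17 → ∀ n : ℕ, ∀ x : ℤ, (p : ℤ) ∣ 17 ^ n * x → (p : ℤ) ∣ x := by
    intro p hp hp17 n x hx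
    rcases (Nat.prime_iff_prime_int.1 hp).dvd_or_dvd hx with h | h
    · exfalso
      have h2 : (p : ℤ) ∣ (17 : ℕ) := by exact_mod_cast
        (Nat.prime_iff_prime_int.1 hp).dvd_of_dvd_pow h
      exact hp17 ((Nat.prime_dvd_prime_iff_eq hp p17).1 (Int.natCast_dvd_natCast.1 h2))
    · exact h
  refine ⟨fun p => if p ∈ insert 2 (∏ j, s j).primeFactors then -ap (Vm (17 * s 1) (17 * s 2)) p
    else 1, ?_, insert 2 (∏ j, s j).primeFactors, ?_, fun p _ hp => if_neg hp, ?_⟩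
  · intro p hp
    by_cases hp17 : p = 17
    · subst hp17
      show LocalRoot _ 17 (if (17 : ℕ) ∈ insert 2 (∏ j, s j).primeFactors then _ else 1)
      rw [if_neg h17n]
      refine Or.inr (Or.inr ⟨by norm_num, Vm (s 1) (s 2), 17, dvd_refl _, p17.squarefree,
        ⟨⟨1, ((17 : ℕ) : ℚ) * ((s 1 : ℤ) - k), 0, 0⟩, ?_⟩, ?_, by norm_num⟩)
      · have := cc_twist (b := s 1) (c := s 2) (k := k) hb (by rw [← h.a_eq]; exact hk) 17
        rw [← h.a_eq] at this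
        rw [← this]
        push_cast
        rfl
      · exact fun hd => h17n ((hpr 17 p17).1 hd)
    · show LocalRoot _ p (if p ∈ insert 2 (∏ j, s j).primeFactors then _ else 1)
      by_cases hmem : p ∈ insert 2 (∏ j, s j).primeFactors
      · rw [if_pos hmem]
        refine Or.inr (Or.inl ⟨_, hm, ?_, ?_, rfl⟩)
        · rw [h.disc17]
          exact ((hpr p hp).2 hmem).mul_left _
        · rw [h.c417]
          intro hd
          exact h.semi.2 p hp ((hpr p hp).2 hmem) (hne p hp hp17 2 _ hd)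
      · rw [if_neg hmem]
        refine Or.inl ⟨_, hm, ?_, rfl⟩
        rw [h.disc17]
        intro hd
        exact hmem ((hpr p hp).1 (hne p hp hp17 6 _ hd))
  · intro p hp
    rw [mem_insert] at hp
    rcases hp with rfl | hp
    · exact Nat.prime_two
    · exact Nat.prime_of_mem_primeFactors hp
  · have h6 : ∏ p ∈ (∏ j, s j).primeFactors, (-ap (Vm (17 * s 1) (17 * s 2)) p) =
        ∏ p ∈ (∏ j, s j).primeFactors, (jacobiSym 17 p * -ap (Vm (s 1) (s 2)) p) :=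
      prod_congr rfl fun p hp => by rw [h.ap17 hp]; ring
    rw [prod_mul_distrib, Pool.Agent.Y655.RZ.jac17 h.sq h.odd h.rel h0 h1] at h6
    have h7 := h.wSemi_eq
    unfold wSemi at h7
    rw [h.primes, prod_insert h.two, ap_two m8'] at h7
    have h8 : ∏ p ∈ insert 2 (∏ j, s j).primeFactors, (-ap (Vm (17 * s 1) (17 * s 2)) p) =
        (-1) ^ ((∏ j, s j).primeFactors \ sgF (s 0) (s 1) (∏ j, s j)).card := by
      rw [prod_insert h.two, ap_two m8, h6, ← h7]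
      ring
    have h9 : (-1 : ℤ) ^ (((∏ j, s j).primeFactors \ sgF (s 0) (s 1) (∏ j, s j)).card + 1) =
        -∏ p ∈ insert 2 (∏ j, s j).primeFactors, (-ap (Vm (17 * s 1) (17 * s 2)) p) := by
      rw [h8, pow_succ]
      ring
    rw [h9]
    congr 1
    exact prod_congr rfl fun p hp => (if_pos hp).symm

end Pool.Agent.Y667.PA
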