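import Pool.Agent.Y667.PA.MainR
import Pool.Agent.Y667.ISO.Stm

/-!
# Project PA (helper667): the good pairs with the triple
-/

set_option autoImplicit false

namespace Pool.Agent.Y667.PA

open Finset Filter Pool.Agent.W262.RK Pool.Agent.W307.RT Pool.Agent.W307.RS Pool.Agent.W307.SE
  Pool.Agent.W307.FK Pool.Agent.Y667.RP Pool.Agent.Y667.RZ Pool.Agent.Y667.MT
open Pool.Agent.Y285.RP Pool.Agent.Y285.RZ Pool.Agent.Y738.MT
open Pool.Agent.Y667.ISO (HP)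

lemma pair_of {r X : ℕ} {t : ℕ × ℕ} (ht : t ∈ Icc 1 X ×ˢ Icc 1 X) (h : GoodR r X t) :
    ∃ s : Fin 3 → ℕ, HP s ∧ (s 0 : ℤ) = t.1 ∧ (s 1 : ℤ) = t.2 ∧
      (s 0 : ℤ) + s 1 = 3 * (((t.1 + t.2) / 3 : ℕ) : ℤ) ∧
      ((TPR r (cc (t.1 : ℤ) (t.2 : ℤ) (((t.1 + t.2) / 3 : ℕ) : ℤ)) ∧
          Even (((∏ j, s j).primeFactors \ sgF (s 0) (s 1) (∏ j, s j)).card + r)) ∨
        (TPR r (cc (17 * (t.1 : ℤ)) (17 * (t.2 : ℤ)) (17 * (((t.1 + t.2) / 3 : ℕ) : ℤ))) ∧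
          Even (((∏ j, s j).primeFactors \ sgF (s 0) (s 1) (∏ j, s j)).card + 1 + r))) := by
  obtain ⟨f1, f2, f3, f4, f5, f6, f7⟩ := factsN ht (goodN_of h)
  obtain ⟨-, -, -, -, -, -, -, s, e0, e1, hsq, hodd, hp, heq, m0, m1, m2, m3, hσ,
    ⟨v0, c0, l0⟩, v1, c1, l1⟩ := h
  have h17 : ¬ 17 ∣ ∏ j, s j := by
    intro h
    have := hp 17 (by norm_num) h
    omega
  have hD : DP s := ⟨hsq, hodd, heq, m0, m1⟩
  obtain ⟨k, k', hk, hk', hodd'⟩ := Pool.Agent.Y655.RZ.PAR Pool.Agent.Y212.RZ.LAG s hsq hodd h17 heq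
    m0 m1 m2 m3 hσ
  obtain ⟨k1, hk1, hev⟩ := abs s hsq hodd heq m0 m1 hσ
  have hkk1 : k1 = k := Nat.pow_right_injective (le_refl 2) (hk1.symm.trans hk)
  subst hkk1
  obtain ⟨g0, g1⟩ := Pool.Agent.Y535.RZ.SEL17 s hsq hodd h17 heq m0 m1 m2 m3
  obtain ⟨r0, r1⟩ := Pool.Agent.Y535.RZ.SURJ Pool.Agent.Y105.RZ.GOODS s hsq hodd hp heq m0 m1 m2 m3
  have E0 := Set.Subset.antisymm g0 r0
  have E1 := Set.Subset.antisymm g1 r1
  rw [hk] at c0 l0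
  rw [hk'] at c1 l1
  rw [← E0] at v0 hk
  rw [← E1] at v1 hk'
  have hkk : (s 0 : ℤ) + s 1 = 3 * (((t.1 + t.2) / 3 : ℕ) : ℤ) := by rw [e0, e1]; exact f1
  refine ⟨s, ⟨hsq, hodd, hp, heq, m0, m1, m2, m3⟩, by rw [e0], by rw [e1], hkk, ?_⟩
  have R1 := hD.root1 hkk
  have R2 := hD.root17 h17 m2 m3 hkk
  have G1 := hD.glob1 hkk
  have G2 := hD.glob17 h17 m2 m3 hkk
  obtain ⟨n, hn⟩ : ∃ n, n = ((∏ j, s j).primeFactors \ sgF (s 0) (s 1) (∏ j, s j)).card := ⟨_, rfl⟩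
  rw [← hn] at R1 R2 G1 G2 hev ⊢
  rw [e0, e1] at R1 R2 G1 G2 v0 v1 hk hk'
  rcases par_mid hodd' c0 c1 l0 l1 with h | h
  · left
    obtain ⟨t1, t2⟩ := tgN f1 f2 f3 v0 (hk.trans h)
    have hkr : k1 = r + 2 := Nat.pow_right_injective (le_refl 2) h
    have hnr : Even (n + r) := by
      rw [hkr] at hev
      have : r + 2 + n = n + r + 2 := by ring
      rw [this] at hev
      exact (Nat.even_add.1 hev).2 (by decide)
    rw [npow_eq hnr] at R1 G1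
    exact ⟨⟨t1, t2, R1, G1⟩, hnr⟩
  · right
    obtain ⟨t1, t2⟩ := tgN (N := 2 ^ (r + 2)) (a := 17 * (t.1 : ℤ)) (b := 17 * (t.2 : ℤ))
      (k := 17 * (((t.1 + t.2) / 3 : ℕ) : ℤ)) (by linarith) (by linarith) (by linarith) v1
      (hk'.trans h)
    have hkr : k' = r + 2 := Nat.pow_right_injective (le_refl 2) h
    have hnr : Even (n + 1 + r) := by
      rw [hkr] at hodd'
      obtain ⟨x, hx⟩ := hodd'
      obtain ⟨y, hy⟩ := hev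
      exact ⟨y + x - k1, by omega⟩
    rw [npow_eq hnr] at R2 G2
    exact ⟨⟨t1, t2, R2, G2⟩, hnr⟩

end Pool.Agent.Y667.PA
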