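import Mathlib
import Pool.Agent.W307.FK.Stm
import Pool.Agent.Y285.RP.CV

/-!
# Project PA (helper667): root numbers of the curves
-/

set_option autoImplicit false

namespace Pool.Agent.Y667.PA

open Finset Pool.Agent.W307.FK Pool.Agent.Y285.RP

/-- the number of the solutions of the Weierstrass equation modulo `p` -/
noncomputable def npts (V : WeierstrassCurve ℤ) (p : ℕ) : ℕ :=
  Nat.card {z : ZMod p × ZMod p // z.2 ^ 2 + V.a₁ * z.1 * z.2 + V.a₃ * z.2 =
    z.1 ^ 3 + V.a₂ * z.1 ^ 2 + V.a₄ * z.1 + V.a₆}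

/-- `a_p` -/
noncomputable def ap (V : WeierstrassCurve ℤ) (p : ℕ) : ℤ := p - npts V p

/-- the equation is semistable (and globally minimal) -/
def Semistable (V : WeierstrassCurve ℤ) : Prop :=
  V.Δ ≠ 0 ∧ ∀ p : ℕ, p.Prime → (p : ℤ) ∣ V.Δ → ¬ (p : ℤ) ∣ V.c₄

/-- the root number of a semistable curve -/
noncomputable def wSemi (V : WeierstrassCurve ℤ) : ℤ :=
  -∏ p ∈ V.Δ.natAbs.primeFactors, (-ap V p)

/-- the quadratic twist by `d` -/
def twist (V : WeierstrassCurve ℤ) (d : ℕ) : WeierstrassCurve ℚ :=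
  ⟨0, (d : ℚ) * V.b₂, 0, 8 * (d : ℚ) ^ 2 * V.b₄, 16 * (d : ℚ) ^ 3 * V.b₆⟩

/-- root numbers of the twists of semistable curves -/
def HasRootNumber (W : WeierstrassCurve ℚ) (w : ℤ) : Prop :=
  ∃ (V : WeierstrassCurve ℤ) (d : ℕ), Semistable V ∧ Squarefree d ∧ d % 4 = 1 ∧
    d.Coprime V.Δ.natAbs ∧ (∃ C : WeierstrassCurve.VariableChange ℚ, C • W = twist V d) ∧
    w = jacobiSym (∏ p ∈ V.Δ.natAbs.primeFactors, p : ℕ) d * wSemi V

section count

variable {F : Type*} [Field F] [Fintype F] [DecidableEq F]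

/-- points of a nodal cubic -/
lemma count_node (hF : ringChar F ≠ 2) (u α β : F) (hα : α ≠ 0) :
    (Nat.card {z : F × F // z.2 ^ 2 = (z.1 - u) ^ 2 * (α * z.1 + β)} : ℤ) =
      Fintype.card F - quadraticChar F (α * u + β) := by
  classical
  have h1 : Nat.card {z : F × F // z.2 ^ 2 = (z.1 - u) ^ 2 * (α * z.1 + β)} =
      ∑ x : F, ({y : F | y ^ 2 = (x - u) ^ 2 * (α * x + β)} : Set F).toFinset.card := by
    rw [Nat.card_congr (Equiv.subtypeProdEquivSigmaSubtype
      (fun x y : F => y ^ 2 = (x - u) ^ 2 * (α * x + β))), Nat.card_sigma]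
    apply sum_congr rfl
    intro x _
    rw [Nat.card_eq_fintype_card, Set.toFinset_card]
    rfl
  rw [h1]
  push_cast
  simp only [quadraticChar_card_sqrts hF]
  rw [sum_add_distrib]
  have h3 : ∑ x : F, quadraticChar F ((x - u) ^ 2 * (α * x + β)) =
      ∑ x : F, quadraticChar F (α * x + β) - quadraticChar F (α * u + β) := by
    rw [eq_sub_iff_add_eq, ← add_sum_erase univ _ (mem_univ u),
      ← add_sum_erase univ (fun x => quadraticChar F (α * x + β)) (mem_univ u)]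
    have h4 : quadraticChar F ((u - u) ^ 2 * (α * u + β)) = 0 := by
      rw [sub_self]; simp
    rw [h4, zero_add, add_comm]
    congr 1
    apply sum_congr rfl
    intro x hx
    rw [map_mul, quadraticChar_sq_one' (sub_ne_zero.2 (ne_of_mem_erase hx)), one_mul]
  have h5 : ∑ x : F, quadraticChar F (α * x + β) = 0 := by
    rw [← quadraticChar_sum_zero hF]
    apply Fintype.sum_bijective (fun x => α * x + β)
    · constructor
      · intro x y h
        have : α * x = α * y := add_right_cancel h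
        exact mul_left_cancel₀ hα this
      · intro y
        exact ⟨α⁻¹ * (y - β), by field_simp; ring⟩
    · intro x; rfl
  rw [h3, h5, sum_const, card_univ]
  simp
  ring

end count

/-- the model of `y² = x (x - a) (x - b)`, `a = b + 32 c` -/
def Vm (b c : ℤ) : WeierstrassCurve ℤ := ⟨1, (b - 1) / 4 - 8 * c, 0, -(2 * b * c), 0⟩

lemma Vm_b2 {b c : ℤ} (hb : b % 4 = 1) : (Vm b c).b₂ = b - 32 * c := by
  have : 4 * ((b - 1) / 4) = b - 1 := by omega
  unfold WeierstrassCurve.b₂ Vm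
  linear_combination this

lemma Vm_b4 (b c : ℤ) : (Vm b c).b₄ = -(4 * b * c) := by
  unfold WeierstrassCurve.b₄ Vm
  ring

lemma Vm_b6 (b c : ℤ) : (Vm b c).b₆ = 0 := by
  unfold WeierstrassCurve.b₆ Vm
  ring

lemma Vm_b8 (b c : ℤ) : (Vm b c).b₈ = -(4 * b ^ 2 * c ^ 2) := by
  unfold WeierstrassCurve.b₈ Vm
  ring

lemma Vm_c4 {b c : ℤ} (hb : b % 4 = 1) : (Vm b c).c₄ = b ^ 2 + 32 * b * c + 1024 * c ^ 2 := by
  unfold WeierstrassCurve.c₄
  rw [Vm_b2 hb, Vm_b4]
  ring

lemma Vm_disc {b c : ℤ} (hb : b % 4 = 1) :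
    (Vm b c).Δ = 4 * (b + 32 * c) ^ 2 * b ^ 2 * c ^ 2 := by
  unfold WeierstrassCurve.Δ
  rw [Vm_b2 hb, Vm_b4, Vm_b6, Vm_b8]
  ring

lemma Vm_semi {b c : ℤ} (hb : b % 4 = 1) (hc0 : c ≠ 0) (ha0 : b + 32 * c ≠ 0)
    (hbc : IsCoprime b c) (hab : IsCoprime (b + 32 * c) b) : Semistable (Vm b c) := by
  have hb0 : b ≠ 0 := by omega
  constructor
  · rw [Vm_disc hb]
    positivity
  · intro p hp hd h4
    rw [Vm_disc hb] at hd
    rw [Vm_c4 hb] at h4
    have hpi := Nat.prime_iff_prime_int.1 hp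
    have hunit : ∀ x y : ℤ, IsCoprime x y → (p : ℤ) ∣ x → (p : ℤ) ∣ y → False := by
      intro x y h hx hy
      exact hpi.not_isUnit (h.isUnit_of_dvd' hx hy)
    have h2b : (p : ℤ) ∣ 2 → (p : ℤ) ∣ b → False := by
      intro h2 h3
      have h5 : p ∣ 2 := by exact_mod_cast h2
      have h6 : p = 2 := (Nat.prime_dvd_prime_iff_eq hp Nat.prime_two).1 h5
      rw [h6] at h3
      push_cast at h3
      omega
    have hcase : (p : ℤ) ∣ 2 ∨ (p : ℤ) ∣ b + 32 * c ∨ (p : ℤ) ∣ b ∨ (p : ℤ) ∣ c := by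
      rcases hpi.dvd_or_dvd hd with h | h
      · rcases hpi.dvd_or_dvd h with h | h
        · rcases hpi.dvd_or_dvd h with h | h
          · left
            have : (p : ℤ) ∣ 2 * 2 := by norm_num; exact h
            rcases hpi.dvd_or_dvd this with h | h <;> exact h
          · exact Or.inr (Or.inl (hpi.dvd_of_dvd_pow h))
        · exact Or.inr (Or.inr (Or.inl (hpi.dvd_of_dvd_pow h)))
      · exact Or.inr (Or.inr (Or.inr (hpi.dvd_of_dvd_pow h)))
    rcases hcase with h | h | h | h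
    · refine h2b h (hpi.dvd_of_dvd_pow (n := 2) ?_)
      have e : b ^ 2 = (b ^ 2 + 32 * b * c + 1024 * c ^ 2) - 2 * (16 * b * c + 512 * c ^ 2) := by
        ring
      rw [e]
      exact dvd_sub h4 (h.mul_right _)
    · refine hunit _ _ hab h (hpi.dvd_of_dvd_pow (n := 2) ?_)
      have e : b ^ 2 = (b ^ 2 + 32 * b * c + 1024 * c ^ 2) - (b + 32 * c) * (32 * c) := by
        ring
      rw [e]
      exact dvd_sub h4 (h.mul_right _)
    · have e : 1024 * c ^ 2 = (b ^ 2 + 32 * b * c + 1024 * c ^ 2) - b * (b + 32 * c) := by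
        ring
      have h5 : (p : ℤ) ∣ 1024 * c ^ 2 := by
        rw [e]
        exact dvd_sub h4 (h.mul_right _)
      rcases hpi.dvd_or_dvd h5 with h6 | h6
      · refine h2b (hpi.dvd_of_dvd_pow (n := 10) ?_) h
        norm_num
        exact h6
      · exact hunit _ _ hbc h (hpi.dvd_of_dvd_pow h6)
    · refine hunit _ _ hbc (hpi.dvd_of_dvd_pow (n := 2) ?_) h
      have e : b ^ 2 = (b ^ 2 + 32 * b * c + 1024 * c ^ 2) - c * (32 * b + 1024 * c) := by
        ring
      rw [e]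
      exact dvd_sub h4 (h.mul_right _)

/-- the twist by `d` is the curve of the pair -/
lemma cc_twist {b c k : ℤ} (hb : b % 4 = 1) (hk : (b + 32 * c) + b = 3 * k) (d : ℕ) :
    (⟨1, (d : ℚ) * (b - k), 0, 0⟩ : WeierstrassCurve.VariableChange ℚ) •
      (⟨0, 0, 0, ((cc (d * (b + 32 * c)) (d * b) (d * k)).1 : ℚ),
        ((cc (d * (b + 32 * c)) (d * b) (d * k)).2 : ℚ)⟩ : WeierstrassCurve ℚ) =
      twist (Vm b c) d := by
  have hk' : (k : ℚ) = (2 * b + 32 * c) / 3 := by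
    have : ((b + 32 * c) + b : ℚ) = 3 * k := by exact_mod_cast hk
    linarith
  unfold twist
  rw [Vm_b2 hb, Vm_b4, Vm_b6, WeierstrassCurve.variableChange_def]
  unfold cc
  ext
  · simp
  · simp only [Units.val_one, inv_one]
    push_cast
    rw [hk']
    ring
  · simp
  · simp only [Units.val_one, inv_one]
    push_cast
    rw [hk']
    ring
  · simp only [Units.val_one, inv_one]
    push_cast
    rw [hk']
    ring

section odd

variable {p : ℕ} [Fact p.Prime]

/-- completing the square -/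
lemma npts_odd {b c : ℤ} (hb : b % 4 = 1) (hp2 : p ≠ 2) :
    npts (Vm b c) p = Nat.card {z : ZMod p × ZMod p //
      z.2 ^ 2 = z.1 * (4 * z.1 + b) * (z.1 - 8 * c)} := by
  have h2 : (2 : ZMod p) ≠ 0 := by
    intro h
    have h3 : ((2 : ℕ) : ZMod p) = 0 := by exact_mod_cast h
    rw [ZMod.natCast_eq_zero_iff] at h3
    exact hp2 ((Nat.prime_dvd_prime_iff_eq (Fact.out : p.Prime) Nat.prime_two).1 h3)
  have e4 : (4 : ZMod p) * (((b - 1) / 4 : ℤ) : ZMod p) = b - 1 := by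
    have : 4 * ((b - 1) / 4) = b - 1 := by omega
    exact_mod_cast congrArg (Int.cast : ℤ → ZMod p) this
  unfold npts
  refine Nat.card_congr (Equiv.subtypeEquiv
    ⟨fun z => (z.1, 2 * z.2 + z.1), fun z => (z.1, (z.2 - z.1) / 2), ?_, ?_⟩ ?_)
  · intro z
    ext
    · rfl
    · show (2 * z.2 + z.1 - z.1) / 2 = z.2
      field_simp
      ring
  · intro z
    ext
    · rfl
    · show 2 * ((z.2 - z.1) / 2) + z.1 = z.2
      field_simp
      ring
  · intro z
    show z.2 ^ 2 + ((Vm b c).a₁ : ZMod p) * z.1 * z.2 + ((Vm b c).a₃ : ZMod p) * z.2 =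
      z.1 ^ 3 + ((Vm b c).a₂ : ZMod p) * z.1 ^ 2 + ((Vm b c).a₄ : ZMod p) * z.1 +
        ((Vm b c).a₆ : ZMod p) ↔ (2 * z.2 + z.1) ^ 2 = z.1 * (4 * z.1 + b) * (z.1 - 8 * c)
    unfold Vm
    push_cast
    have h4 : (4 : ZMod p) ≠ 0 := by
      have : (4 : ZMod p) = 2 * 2 := by norm_num
      rw [this]
      exact mul_ne_zero h2 h2
    constructor
    · intro h
      linear_combination 4 * h + z.1 ^ 2 * e4
    · intro h
      apply mul_left_cancel₀ h4
      linear_combination h - z.1 ^ 2 * e4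

lemma node_ap {b c : ℤ} (hb : b % 4 = 1) (hp2 : p ≠ 2) (u α β : ZMod p) (hα : α ≠ 0)
    (hg : ∀ x : ZMod p, x * (4 * x + b) * (x - 8 * c) = (x - u) ^ 2 * (α * x + β)) (n : ℤ)
    (hn : α * u + β = n) : ap (Vm b c) p = jacobiSym n p := by
  classical
  have h1 : ringChar (ZMod p) ≠ 2 := by
    rw [ZMod.ringChar_zmod_n]; exact hp2
  unfold ap
  rw [npts_odd hb hp2]
  have h2 : (Nat.card {z : ZMod p × ZMod p // z.2 ^ 2 = z.1 * (4 * z.1 + b) * (z.1 - 8 * c)} : ℤ) =
      Fintype.card (ZMod p) - quadraticChar (ZMod p) (α * u + β) := by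
    rw [← count_node h1 u α β hα]
    congr 1
    apply Nat.card_congr
    exact Equiv.subtypeEquivRight fun z => by rw [hg]
  rw [h2, ZMod.card, hn, ← jacobiSym.legendreSym.to_jacobiSym]
  unfold legendreSym
  ring

lemma four_ne (hp2 : p ≠ 2) : (4 : ZMod p) ≠ 0 := by
  have h2 : (2 : ZMod p) ≠ 0 := by
    intro h
    have h3 : ((2 : ℕ) : ZMod p) = 0 := by exact_mod_cast h
    rw [ZMod.natCast_eq_zero_iff] at h3
    exact hp2 ((Nat.prime_dvd_prime_iff_eq (Fact.out : p.Prime) Nat.prime_two).1 h3)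
  have : (4 : ZMod p) = 2 * 2 := by norm_num
  rw [this]
  exact mul_ne_zero h2 h2

lemma ap_a {b c : ℤ} (hb : b % 4 = 1) (hp2 : p ≠ 2) (h : (p : ℤ) ∣ b + 32 * c) :
    ap (Vm b c) p = jacobiSym (-b) p := by
  have h1 : (b : ZMod p) + 32 * c = 0 := by
    have := (ZMod.intCast_zmod_eq_zero_iff_dvd (b + 32 * c) p).2 h
    push_cast at this
    exact this
  apply node_ap hb hp2 (8 * c) 4 0 (four_ne hp2)
  · intro x
    linear_combination x * (x - 8 * c) * h1
  · push_cast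
    linear_combination h1

lemma ap_b {b c : ℤ} (hb : b % 4 = 1) (hp2 : p ≠ 2) (h : (p : ℤ) ∣ b) :
    ap (Vm b c) p = jacobiSym (-(b + 32 * c)) p := by
  have h1 : (b : ZMod p) = 0 := (ZMod.intCast_zmod_eq_zero_iff_dvd b p).2 h
  apply node_ap hb hp2 0 4 (-(32 * c)) (four_ne hp2)
  · intro x
    linear_combination x * (x - 8 * c) * h1
  · push_cast
    linear_combination h1

lemma ap_c {b c : ℤ} (hb : b % 4 = 1) (hp2 : p ≠ 2) (h : (p : ℤ) ∣ c) :
    ap (Vm b c) p = jacobiSym (b + 32 * c) p := by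
  have h1 : (c : ZMod p) = 0 := (ZMod.intCast_zmod_eq_zero_iff_dvd c p).2 h
  apply node_ap hb hp2 0 4 b (four_ne hp2)
  · intro x
    linear_combination (-8) * x * (4 * x + b) * h1
  · push_cast
    linear_combination (-32) * h1

end odd

lemma ap_two {b c : ℤ} (hb : b % 8 = 1) : ap (Vm b c) 2 = 1 := by
  have e2 : (((b - 1) / 4 - 8 * c : ℤ) : ZMod 2) = 0 := by
    rw [ZMod.intCast_zmod_eq_zero_iff_dvd]
    push_cast
    omega
  have e4 : ((-(2 * b * c) : ℤ) : ZMod 2) = 0 := by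
    rw [ZMod.intCast_zmod_eq_zero_iff_dvd]
    push_cast
    exact ⟨-(b * c), by ring⟩
  unfold ap npts
  have h : Nat.card {z : ZMod 2 × ZMod 2 // z.2 ^ 2 + ((Vm b c).a₁ : ZMod 2) * z.1 * z.2 +
      ((Vm b c).a₃ : ZMod 2) * z.2 = z.1 ^ 3 + ((Vm b c).a₂ : ZMod 2) * z.1 ^ 2 +
        ((Vm b c).a₄ : ZMod 2) * z.1 + ((Vm b c).a₆ : ZMod 2)} =
      Nat.card {z : ZMod 2 × ZMod 2 // z.2 ^ 2 + z.1 * z.2 = z.1 ^ 3} := by
    apply Nat.card_congr
    apply Equiv.subtypeEquivRight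
    intro z
    unfold Vm
    simp only [e2, e4]
    push_cast
    constructor
    · intro h
      linear_combination h
    · intro h
      linear_combination h
  rw [h, Nat.card_eq_fintype_card]
  have h2 : Fintype.card {z : ZMod 2 × ZMod 2 // z.2 ^ 2 + z.1 * z.2 = z.1 ^ 3} = 1 := by decide
  rw [h2]
  norm_num

end Pool.Agent.Y667.PA
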